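import Pool.Agent.MP_3466b8_an.Final

/-!
# Extremal functions in the Chang-Marshall inequality

The supremum of the Chang-Marshall integral over the class `𝓕` is attained, and exactly by the
functions `f(z) = c z` with `|c| = 1`.
-/

set_option autoImplicit false

open Pool.Agent.MP_3466b8_an

namespace Pool.Agent.Results.MP_3466b8_an.Extremals

/-- The extremal functions are exactly the functions equal to `c z` on the disc, `|c| = 1`. -/
theorem result : {f : ℂ → ℂ | f ∈ classF ∧ cmInt f = ⨆ g ∈ classF, cmInt g} =
    {f : ℂ → ℂ | ∃ c : ℂ, ‖c‖ = 1 ∧ ∀ z ∈ Metric.ball (0 : ℂ) 1, f z = c * z} :=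
  extremals

end Pool.Agent.Results.MP_3466b8_an.Extremals
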