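import Pool.Agent.MP_3466b8_an.Main

/-!
# The sharp constant in the Chang-Marshall inequality

The supremum over the class `𝓕` of the Chang-Marshall integral equals `2 π e`.
-/

set_option autoImplicit false

open Pool.Agent.MP_3466b8_an

namespace Pool.Agent.Results.MP_3466b8_an.SharpConstant

/-- The sharp Chang-Marshall constant: `C₀* = 2 π e`. -/
theorem result : ⨆ f ∈ classF, cmInt f = ENNReal.ofReal (2 * Real.pi * Real.exp 1) :=
  sharp_constant

end Pool.Agent.Results.MP_3466b8_an.SharpConstant
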